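import Mathlib
import Pool.Agent.TH202.FlFin
import Pool.Agent.TH202.FlSeq
import Pool.Agent.TH922.C8_DAT
import Pool.Agent.TH551.C8_XM1
import Pool.Agent.TH921.FL_GK
import Pool.Agent.Y131.IF.Thr

/-!
# A minimal model program with scaling of an ample divisor that does not end

There is a projective (hence compact Kähler) threefold gklt pair `(Y_0, β)` with `K + β`
pseudo-effective (it has even a Zariski decomposition with nef positive part on a higher model) for
which the minimal model program with scaling of an ample divisor is an infinite sequence of flips,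
and no member of the sequence has a weak log canonical model.
-/

set_option autoImplicit false

namespace Pool.Agent.Results.MP_aa0b3f_ag.ScalingWithoutEnd

open Pool.Agent.H436R3.Fol Pool.Agent.TH202 Pool.Agent.Y181 Filter Topology

variable {K : Type} [Field K] [Algebra ℂ K]

/-- `Y → Z` is a flipping contraction of relative Picard number one for the `ℝ`-Cartier divisor `D`
on `Y`, and `Y' → Z` is its flip, `D'` being the strict transform of `D` on `Y'`. -/
structure IsFlipOver (Y Z Y' : Model K) (D D' : DVal K → ℝ) : Prop where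
  small : IsSmall Y Z
  small' : IsSmall Y' Z
  anti_ample : IsAmpleOver Y Z (-D)
  ample : IsAmpleOver Y' Z D'
  rho : IsRho Y Z D
  rho' : IsRho Y' Z D'

/-- **A minimal model program with scaling that does not end.** -/
theorem result : ∃ (K : Type) (_ : Field K) (_ : Algebra ℂ K) (_ : Algebra.EssFiniteType ℂ K)
    (T : Foliation K 3) (_ : T.space = ⊤) (X : Model K) (Y Z : ℕ → Model K)
    (β N : DVal K → ℝ) (D A : ℕ → DVal K → ℝ) (lam : ℕ → ℝ),
    -- the pairs: gklt, `K + β` pseudo-effective, with Zariski decomposition, without models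
    (IsNef X β ∧ IsNef X N) ∧
    (∀ n, IsGklt T (Y n) 0 β (D n) ∧ IsPsef (Y n) (D n) ∧
      (∀ v, N v ≤ D n v) ∧ (∀ w, IsPrimeOn (Y n) w → N w = D n w) ∧
      ∀ (W : Model K) (E : DVal K → ℝ), ¬ IsWeakLCModel T (Y n) 0 β (D n) W E) ∧
    -- the flips
    (∀ n, IsFlipOver (Y n) (Z n) (Y (n + 1)) (D n) (D (n + 1))) ∧
    -- the scaling divisor
    IsAmple (Y 0) (A 0) ∧
    (∀ n, IsRCar (Y n) (A n) ∧ ∀ w, IsPrimeOn (Y n) w → A n w = A 0 w) ∧
    -- the thresholds
    (∀ n, IsLeast {t : ℝ | IsNef (Y n) (D n + t • A n)} (lam n) ∧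
      IsAmple (Z n) (D n + lam n • A n) ∧
      D n + lam n • A n = D (n + 1) + lam n • A (n + 1)) ∧
    (∀ n, 0 < lam (n + 1) ∧ lam (n + 1) < lam n) ∧ Tendsto lam atTop (𝓝 0) := by
  obtain ⟨K, iF, iA, iE, ⟨d⟩⟩ := Pool.Agent.TH922.C8_DAT.exists_dat
  obtain ⟨T, hT, hTs⟩ := Pool.Agent.TH922.C8_DAT.exists_fol d
  have h := Pool.Agent.TH551.C8_XM1.xi_alg d
  obtain ⟨s, hfil, hgen, hy⟩ := exists_sq2 d
  refine ⟨K, iF, iA, iE, T, hTs, Xd d h, fun n => M3 s (n + 3) (by omega),
    fun n => M2 s (n + 3 + 1) (by omega), bt s, bet s + pr d, fun n => Dn s (n + 3), fun n => Y131.IF.An s n,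
    Y131.IF.lam, ⟨Pool.Agent.TH246.C8_POS.bt_nef h s, Y131.IF.zar_nef h s⟩, fun n => ⟨?_, ?_, ?_, ?_, ?_⟩,
    fun n => ⟨?_, ?_, ?_, ?_, ?_, ?_⟩, ?_, fun n => ⟨?_, ?_⟩, fun n => ⟨?_, ?_, ?_⟩,
    fun n => ⟨Y131.IF.lam_pos _, Y131.IF.lam_lt n⟩, Y131.IF.lam_tendsto⟩
  · exact Pool.Agent.TH921.FL_GK.gk h s hfil T hT (n + 3) (by omega)
  · exact Y131.IF.psef_Dn h s hfil (n + 3) (by omega)
  · exact fun v => Y131.IF.zar_le h s hfil (n + 3) (by omega) v
  · exact fun w hw => (Y131.IF.Dn_prime h s hfil (n + 3) (by omega) w hw).symm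
  · exact fun W E => Y131.IF.no_lc h s hfil T hT (n + 3) (by omega) W E
  · exact small_left h s hfil hy (n + 3) (by omega)
  · exact small_right h s hfil hy (n + 3 + 1) (by omega)
  · exact ample_left s (n + 3) (by omega)
  · exact ample_right s (n + 3 + 1) (by omega)
  · exact rho_left h s hfil hgen hy (n + 3) (by omega)
  · exact rho_right h s hfil hgen hy (n + 3 + 1) (by omega)
  · exact Y131.IF.ample_An s
  · exact Y131.IF.rcar_An s n
  · exact fun w hw => Y131.IF.An_strict h s hfil n w hw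
  · exact Y131.IF.threshold h s hfil n
  · exact Y131.IF.ample_base s n
  · exact Y131.IF.base_eq s n

end Pool.Agent.Results.MP_aa0b3f_ag.ScalingWithoutEnd
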